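import Pool.Agent.L0h94.SL.Defs
import Pool.Agent.L0h59.RZ.Steer

/-!
Project SL (helper94), part BRD: deleting one prime of each class.
-/

set_option autoImplicit false

namespace Pool.Agent.L0h90.SL

open Finset Pool.Agent.L0h94.RZ Pool.Agent.L0h59.RZ Pool.Agent.L0h94.SL

/-- evaluation at `l` -/
def evb (l : ℕ) : (ℕ → ZMod 2) →ₗ[ZMod 2] ZMod 2 where
  toFun x := x l
  map_add' _ _ := rfl
  map_smul' _ _ := rfl

/-- a symmetric double sum in characteristic two is the sum of the diagonal -/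
theorem dsum (A : Finset ℕ) (a : ℕ → ℕ → ZMod 2) (hs : ∀ p ∈ A, ∀ q ∈ A, a p q = a q p) :
    ∑ p ∈ A, ∑ q ∈ A, a p q = ∑ p ∈ A, a p p := by
  classical
  induction A using Finset.induction_on with
  | empty => simp
  | insert x A hx ih =>
    rw [sum_insert hx, sum_insert hx, sum_insert hx]
    have h1 : ∑ p ∈ A, ∑ q ∈ insert x A, a p q = ∑ p ∈ A, a p x + ∑ p ∈ A, ∑ q ∈ A, a p q := by
      rw [← sum_add_distrib]
      exact sum_congr rfl fun p _ => sum_insert hx
    rw [h1, ih (fun p hp q hq => hs p (mem_insert_of_mem hp) q (mem_insert_of_mem hq))]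
    have h2 : ∑ q ∈ A, a x q = ∑ p ∈ A, a p x :=
      sum_congr rfl fun q hq => hs x (mem_insert_self _ _) q (mem_insert_of_mem hq)
    rw [h2]
    have h3 : ∑ p ∈ A, a p x + ∑ p ∈ A, a p x = 0 := CharTwo.add_self_eq_zero _
    linear_combination h3

section main

variable {S : Finset ℕ} {cl : ℕ → Fin 3} {e : ℕ → ℕ → ZMod 2}

/-- `h · v = 0` for the kernel vectors of a submatrix -/
theorem diag_zero {A : Finset ℕ} (hs : ∀ p ∈ A, ∀ q ∈ A, e p q = e q p) {v : ℕ → ZMod 2}
    (hv : v ∈ KerE A e) : ∑ l ∈ A, e l l * v l = 0 := by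
  have h1 := dsum A (fun p q => e p q * v p * v q) (fun p hp q hq => by
    rw [hs p hp q hq]; ring)
  have h2 : ∑ p ∈ A, ∑ q ∈ A, e p q * v p * v q = 0 := by
    refine sum_eq_zero fun p hp => ?_
    have h3 : ∑ q ∈ A, e p q * v p * v q = v p * ∑ q ∈ A, e p q * v q := by
      rw [mul_sum]
      exact sum_congr rfl fun q _ => by ring
    rw [h3, hv.2 p hp, mul_zero]
  rw [h2] at h1
  rw [h1]
  refine sum_congr rfl fun p _ => ?_
  rcases zmod2 (v p) with h | h
  · rw [h]; ring
  · rw [h]; ring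

/-- kernel vectors of the submatrix are kernel vectors -/
theorem ext_ker (hs : ∀ p ∈ S, ∀ q ∈ S, e p q = e q p)
    (hr : ∀ χ : Fin 3, ∀ p ∈ S, ∑ q ∈ S.filter (fun q => cl q = χ), e p q = e p p)
    {p q r : ℕ} (hp : p ∈ S) (hq : q ∈ S) (hr' : r ∈ S) (cp : cl p = 0) (cq : cl q = 1)
    (cr : cl r = 2) {v : ℕ → ZMod 2} (hv : v ∈ KerE (S \ {p, q, r}) e) : v ∈ KerE S e := by
  classical
  have hsub : S \ {p, q, r} ⊆ S := sdiff_subset
  have hrow : ∀ l, ∑ m ∈ S, e l m * v m = ∑ m ∈ S \ {p, q, r}, e l m * v m := by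
    intro l
    symm
    apply sum_subset hsub
    intro m _ hm
    rw [hv.1 m hm, mul_zero]
  have h0 : ∑ l ∈ S, e l l * v l = 0 := by
    rw [← diag_zero (fun a ha b hb => hs a (hsub ha) b (hsub hb)) hv]
    symm
    apply sum_subset hsub
    intro m _ hm
    rw [hv.1 m hm, mul_zero]
  -- the sums over the classes
  have hcl : ∀ χ : Fin 3, ∑ l ∈ S.filter (fun l => cl l = χ), ∑ m ∈ S, e l m * v m = 0 := by
    intro χ
    rw [sum_comm, ← h0]
    refine sum_congr rfl fun m hm => ?_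
    rw [← sum_mul, ← hr χ m hm]
    congr 1
    exact sum_congr rfl fun l hl => hs l (mem_filter.1 hl).1 m hm
  have hone : ∀ x ∈ ({p, q, r} : Finset ℕ), x ∈ S → ∑ m ∈ S, e x m * v m = 0 := by
    intro x hx hxS
    have h1 := hcl (cl x)
    rw [Finset.sum_eq_single x] at h1
    · exact h1
    · intro b hb hbx
      rw [mem_filter] at hb
      have hbn : b ∉ ({p, q, r} : Finset ℕ) := by
        intro hb'
        simp only [mem_insert, mem_singleton] at hb' hx
        have hc := hb.2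
        rcases hb' with rfl | rfl | rfl <;> rcases hx with rfl | rfl | rfl <;>
          first
          | exact hbx rfl
          | (rw [cp, cq] at hc; exact absurd hc (by decide))
          | (rw [cp, cr] at hc; exact absurd hc (by decide))
          | (rw [cq, cr] at hc; exact absurd hc (by decide))
          | (rw [cq, cp] at hc; exact absurd hc (by decide))
          | (rw [cr, cp] at hc; exact absurd hc (by decide))
          | (rw [cr, cq] at hc; exact absurd hc (by decide))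
      rw [hrow]
      exact hv.2 b (mem_sdiff.2 ⟨hb.1, hbn⟩)
    · intro h
      exact absurd (mem_filter.2 ⟨hxS, rfl⟩ : x ∈ S.filter (fun l => cl l = cl x)) h
  refine ⟨fun x hx => hv.1 x fun hx' => hx (hsub hx'), ?_⟩
  intro x hx
  by_cases hx' : x ∈ ({p, q, r} : Finset ℕ)
  · exact hone x hx' hx
  · rw [hrow]
    exact hv.2 x (mem_sdiff.2 ⟨hx, hx'⟩)

/-- the sum of two indicator functions of classes is in the kernel -/
theorem ind_ker (hr : ∀ χ : Fin 3, ∀ p ∈ S, ∑ q ∈ S.filter (fun q => cl q = χ), e p q = e p p)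
    (a b : Fin 3) (hab : a ≠ b) :
    (fun x => if x ∈ S ∧ (cl x = a ∨ cl x = b) then (1 : ZMod 2) else 0) ∈ KerE S e := by
  classical
  refine ⟨fun x hx => if_neg fun h => hx h.1, ?_⟩
  intro x hx
  have h1 : ∀ y ∈ S, e x y * (if y ∈ S ∧ (cl y = a ∨ cl y = b) then (1 : ZMod 2) else 0) =
      (if cl y = a then e x y else 0) + (if cl y = b then e x y else 0) := by
    intro y hy
    by_cases h2 : cl y = a
    · have h3 : cl y ≠ b := fun h => hab (h2.symm.trans h)
      rw [if_pos ⟨hy, Or.inl h2⟩, if_pos h2, if_neg h3, mul_one, add_zero]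
    · by_cases h3 : cl y = b
      · rw [if_pos ⟨hy, Or.inr h3⟩, if_neg h2, if_pos h3, mul_one, zero_add]
      · rw [if_neg (fun h => h.2.elim h2 h3), if_neg h2, if_neg h3, mul_zero, add_zero]
  rw [sum_congr rfl h1, sum_add_distrib, ← sum_filter, ← sum_filter, hr a x hx, hr b x hx]
  exact CharTwo.add_self_eq_zero _

/-- the kernel of the submatrix -/
theorem ker_sub (hs : ∀ p ∈ S, ∀ q ∈ S, e p q = e q p)
    (hr : ∀ χ : Fin 3, ∀ p ∈ S, ∑ q ∈ S.filter (fun q => cl q = χ), e p q = e p p)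
    {p q r : ℕ} (hp : p ∈ S) (hq : q ∈ S) (hr' : r ∈ S) (cp : cl p = 0) (cq : cl q = 1)
    (cr : cl r = 2) :
    KerE (S \ {p, q, r}) e =
      ((KerE S e ⊓ LinearMap.ker (evb p)) ⊓ LinearMap.ker (evb r)) ⊓ LinearMap.ker (evb q) := by
  classical
  ext v
  simp only [Submodule.mem_inf, LinearMap.mem_ker]
  constructor
  · intro hv
    exact ⟨⟨⟨ext_ker hs hr hp hq hr' cp cq cr hv, hv.1 p (by simp)⟩, hv.1 r (by simp)⟩,
      hv.1 q (by simp)⟩
  · rintro ⟨⟨⟨h1, h2⟩, h3⟩, h4⟩
    have hz : ∀ x ∈ ({p, q, r} : Finset ℕ), v x = 0 := by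
      intro x hx
      rw [mem_insert, mem_insert, mem_singleton] at hx
      rcases hx with rfl | rfl | rfl
      · exact h2
      · exact h4
      · exact h3
    refine ⟨fun x hx => ?_, fun x hx => ?_⟩
    · by_cases h5 : x ∈ S
      · apply hz
        by_contra h6
        exact hx (mem_sdiff.2 ⟨h5, h6⟩)
      · exact h1.1 x h5
    · rw [← h1.2 x (mem_sdiff.1 hx).1]
      apply sum_subset sdiff_subset
      intro y hy hy'
      rw [hz y, mul_zero]
      by_contra h6
      exact hy' (mem_sdiff.2 ⟨hy, h6⟩)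

end main

theorem fr_ne {W : Submodule (ZMod 2) (ℕ → ZMod 2)} [Module.Finite (ZMod 2) W] {v : ℕ → ZMod 2}
    {l : ℕ} (hv : v ∈ W) (hl : v l = 1) : Module.finrank (ZMod 2) W ≠ 0 := by
  intro h0
  rw [Submodule.finrank_eq_zero] at h0
  rw [h0, Submodule.mem_bot] at hv
  rw [hv] at hl
  exact zero_ne_one hl

theorem brd : S_BRD := by
  classical
  intro S cl e hs hr p q r hp hq hr' cp cq cr
  have h01 := ind_ker (S := S) (cl := cl) (e := e) hr 0 1 (by decide)
  have h12 := ind_ker (S := S) (cl := cl) (e := e) hr 1 2 (by decide)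
  set v01 : ℕ → ZMod 2 := fun x => if x ∈ S ∧ (cl x = 0 ∨ cl x = 1) then (1 : ZMod 2) else 0
    with hv01
  set v12 : ℕ → ZMod 2 := fun x => if x ∈ S ∧ (cl x = 1 ∨ cl x = 2) then (1 : ZMod 2) else 0
    with hv12
  have e1 : v01 p = 1 := by simp only [hv01]; exact if_pos ⟨hp, Or.inl cp⟩
  have e2 : v12 p = 0 := by
    simp only [hv12]
    refine if_neg ?_
    rw [cp]
    rintro ⟨-, h | h⟩ <;> exact absurd h (by decide)
  have e3 : v12 r = 1 := by simp only [hv12]; exact if_pos ⟨hr', Or.inr cr⟩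
  rw [ker_sub hs hr hp hq hr' cp cq cr]
  set W0 := KerE S e with hW0
  set W1 := W0 ⊓ LinearMap.ker (evb p) with hW1
  set W2 := W1 ⊓ LinearMap.ker (evb r) with hW2
  have i1 : Module.Finite (ZMod 2) W1 := Submodule.finiteDimensional_inf_left _ _
  have i2 : Module.Finite (ZMod 2) W2 := Submodule.finiteDimensional_inf_left _ _
  have m12 : v12 ∈ W1 := ⟨h12, e2⟩
  have f1 : Module.finrank (ZMod 2) W1 = Module.finrank (ZMod 2) W0 - 1 :=
    finrank_inf W0 (evb p) h01 e1
  have f2 : Module.finrank (ZMod 2) W2 = Module.finrank (ZMod 2) W1 - 1 :=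
    finrank_inf W1 (evb r) m12 e3
  have n0 : Module.finrank (ZMod 2) W0 ≠ 0 := fr_ne h01 e1
  have n1 : Module.finrank (ZMod 2) W1 ≠ 0 := fr_ne m12 e3
  by_cases hex : ∃ v ∈ W2, v q = 1
  · obtain ⟨v, hv, hvq⟩ := hex
    have f3 := finrank_inf W2 (evb q) hv hvq
    have n2 : Module.finrank (ZMod 2) W2 ≠ 0 := fr_ne hv hvq
    right
    rw [f3]
    omega
  · push Not at hex
    have h3 : W2 ⊓ LinearMap.ker (evb q) = W2 := by
      rw [inf_eq_left]
      intro v hv
      rw [LinearMap.mem_ker]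
      exact (zmod2 (v q)).resolve_right (hex v hv)
    left
    rw [h3]
    omega

end Pool.Agent.L0h90.SL
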