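import Pool.Agent.L0h94.SL.Defs
import Pool.Agent.L0h59.RZ.Steer

/-!
Project SL (helper94), part UPS: one more prime increases the coranks.
-/

set_option autoImplicit false

namespace Pool.Agent.L0h90.SL

open Finset Pool.Agent.L0h94.RZ Pool.Agent.L0h59.RZ Pool.Agent.L0h94.SL

/-- over a field, the image of a symmetric matrix is the orthogonal complement of its kernel -/
theorem solve2 {S : Finset ℕ} {e : ℕ → ℕ → ZMod 2} (hs : ∀ p ∈ S, ∀ q ∈ S, e p q = e q p)
    (g : ℕ → ZMod 2) (hg : ∀ v ∈ KerE S e, ∑ q ∈ S, g q * v q = 0) :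
    ∃ x0 : ℕ → ZMod 2, (∀ p ∈ S, ∑ q ∈ S, e p q * x0 q = g p) := by
  classical
  by_contra hcon
  have hnot : (fun p : S => g p.1) ∉ LinearMap.range (mat S e) := by
    rintro ⟨x, hx⟩
    apply hcon
    refine ⟨ext0 S x, ?_⟩
    intro p hp
    rw [ext0_sum]
    exact congrFun hx ⟨p, hp⟩
  obtain ⟨f, hf, hle⟩ := Submodule.exists_le_ker_of_notMem hnot
  set y : S → ZMod 2 := fun q => f (Pi.single q 1) with hy
  have hfx : ∀ x : S → ZMod 2, f x = ∑ q : S, y q * x q := by
    intro x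
    have h1 : x = ∑ q : S, x q • (Pi.single q (1 : ZMod 2) : S → ZMod 2) := by
      funext p
      rw [Finset.sum_apply]
      simp [Pi.single_apply]
    conv_lhs => rw [h1]
    rw [map_sum]
    refine sum_congr rfl fun q _ => ?_
    rw [map_smul, smul_eq_mul, mul_comm]
  have hker : ext0 S y ∈ KerE S e := by
    refine ⟨fun p hp => by rw [ext0, dif_neg hp], ?_⟩
    intro p hp
    rw [ext0_sum]
    have h2 : f (mat S e (Pi.single ⟨p, hp⟩ 1)) = 0 := by
      have h3 : mat S e (Pi.single ⟨p, hp⟩ 1) ∈ LinearMap.range (mat S e) := ⟨_, rfl⟩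
      exact LinearMap.mem_ker.1 (hle h3)
    rw [hfx] at h2
    rw [← h2]
    refine sum_congr rfl fun q _ => ?_
    have h4 : mat S e (Pi.single ⟨p, hp⟩ 1) q = e q.1 p := by
      change ∑ q' : S, e q.1 q'.1 * (Pi.single ⟨p, hp⟩ (1 : ZMod 2) : S → ZMod 2) q' = e q.1 p
      rw [Finset.sum_eq_single ⟨p, hp⟩]
      · simp
      · intro b _ hb
        rw [Pi.single_eq_of_ne hb, mul_zero]
      · intro h
        exact absurd (mem_univ _) h
    rw [h4, hs p hp q.1 q.2, mul_comm]
  have h5 := hg _ hker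
  rw [ext0_sum] at h5
  apply hf
  rw [hfx]
  rw [← h5]
  exact sum_congr rfl fun q _ => mul_comm _ _

/-- evaluation at `l` -/
def evl (l : ℕ) : (ℕ → ZMod 2) →ₗ[ZMod 2] ZMod 2 where
  toFun x := x l
  map_add' _ _ := rfl
  map_smul' _ _ := rfl

section border

variable {S : Finset ℕ} {e e' : ℕ → ℕ → ZMod 2} {l : ℕ} {g : ℕ → ZMod 2} {d : ZMod 2}

theorem ker_eq (h : Bord S e e' l g d) (hg : ∀ v ∈ KerE S e, ∑ q ∈ S, g q * v q = 0) :
    KerE (insert l S) e' ⊓ LinearMap.ker (evl l) = KerE S e := by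
  ext x
  rw [Submodule.mem_inf, h.mem, LinearMap.mem_ker]
  constructor
  · rintro ⟨⟨a1, a2, -⟩, a4⟩
    have hx : x l = 0 := a4
    refine ⟨?_, ?_⟩
    · intro p hp
      by_cases hpl : p = l
      · rw [hpl]; exact hx
      · exact a1 p (by simp [hpl, hp])
    · intro p hp
      have := a2 p hp
      rwa [hx, mul_zero, add_zero] at this
  · intro hx0
    have hx : x l = 0 := hx0.1 l h.hl
    refine ⟨⟨?_, ?_, ?_⟩, hx⟩
    · intro p hp
      exact hx0.1 p fun hp' => hp (mem_insert_of_mem hp')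
    · intro p hp
      rw [hx, mul_zero, add_zero]
      exact hx0.2 p hp
    · rw [hx, mul_zero, add_zero]
      exact hg x hx0

theorem up_one (h : Bord S e e' l g d) (hg : ∀ v ∈ KerE S e, ∑ q ∈ S, g q * v q = 0)
    {x0 : ℕ → ZMod 2} (hx0 : ∀ p ∈ S, ∑ q ∈ S, e p q * x0 q = g p)
    (hd : d = ∑ q ∈ S, g q * x0 q) :
    Module.finrank (ZMod 2) (KerE (insert l S) e') = Module.finrank (ZMod 2) (KerE S e) + 1 := by
  classical
  set z : ℕ → ZMod 2 := fun p => if p = l then 1 else if p ∈ S then x0 p else 0 with hz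
  have hzS : ∀ p ∈ S, z p = x0 p := by
    intro p hp
    have hpl : p ≠ l := fun h' => h.hl (h' ▸ hp)
    simp only [hz]
    rw [if_neg hpl, if_pos hp]
  have hzl : z l = 1 := by simp [hz]
  have hzm : z ∈ KerE (insert l S) e' := by
    rw [h.mem]
    refine ⟨?_, ?_, ?_⟩
    · intro p hp
      rw [mem_insert, not_or] at hp
      simp only [hz]
      rw [if_neg hp.1, if_neg hp.2]
    · intro p hp
      rw [hzl, mul_one, sum_congr rfl fun q hq => by rw [hzS q hq], hx0 p hp]
      exact CharTwo.add_self_eq_zero _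
    · rw [hzl, mul_one, sum_congr rfl fun q hq => by rw [hzS q hq], hd]
      exact CharTwo.add_self_eq_zero _
  have h1 := finrank_inf (KerE (insert l S) e') (evl l) hzm hzl
  rw [ker_eq h hg] at h1
  have h2 : Module.finrank (ZMod 2) (KerE (insert l S) e') ≠ 0 := by
    intro h0
    rw [Submodule.finrank_eq_zero] at h0
    rw [h0, Submodule.mem_bot] at hzm
    rw [hzm] at hzl
    exact zero_ne_one hzl
  omega

theorem up_zero (h : Bord S e e' l g d) (hs : ∀ p ∈ S, ∀ q ∈ S, e p q = e q p)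
    (hg : ∀ v ∈ KerE S e, ∑ q ∈ S, g q * v q = 0)
    {x0 : ℕ → ZMod 2} (hx0 : ∀ p ∈ S, ∑ q ∈ S, e p q * x0 q = g p)
    (hd : d ≠ ∑ q ∈ S, g q * x0 q) :
    Module.finrank (ZMod 2) (KerE (insert l S) e') = Module.finrank (ZMod 2) (KerE S e) := by
  have key : KerE (insert l S) e' ⊓ LinearMap.ker (evl l) = KerE (insert l S) e' := by
    rw [inf_eq_left]
    intro x hx
    rw [h.mem] at hx
    obtain ⟨a1, a2, a3⟩ := hx
    have s1 : ∑ p ∈ S, x0 p * (∑ q ∈ S, e p q * x q + g p * x l) = 0 :=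
      sum_eq_zero fun p hp => by rw [a2 p hp, mul_zero]
    have s2 : ∑ p ∈ S, x0 p * (∑ q ∈ S, e p q * x q + g p * x l) =
        ∑ q ∈ S, x q * (∑ p ∈ S, e q p * x0 p) + (∑ p ∈ S, g p * x0 p) * x l := by
      simp only [mul_add, sum_add_distrib, mul_sum]
      congr 1
      · rw [sum_comm]
        refine sum_congr rfl fun q hq => sum_congr rfl fun p hp => ?_
        rw [hs p hp q hq]; ring
      · rw [sum_mul]
        exact sum_congr rfl fun p _ => by ring
    have s3 : ∑ q ∈ S, x q * (∑ p ∈ S, e q p * x0 p) = ∑ q ∈ S, g q * x q :=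
      sum_congr rfl fun q hq => by rw [hx0 q hq]; ring
    rw [s2, s3] at s1
    have hd1 : d + ∑ q ∈ S, g q * x0 q = 1 := by
      rcases zmod2 (d + ∑ q ∈ S, g q * x0 q) with h0 | h0
      · exfalso
        apply hd
        exact CharTwo.add_eq_zero.1 h0
      · exact h0
    have s4 : (∑ q ∈ S, g q * x q + (∑ q ∈ S, g q * x0 q) * x l) +
        (∑ q ∈ S, g q * x q + d * x l) = (d + ∑ q ∈ S, g q * x0 q) * x l := by
      have : ∑ q ∈ S, g q * x q + ∑ q ∈ S, g q * x q = 0 := CharTwo.add_self_eq_zero _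
      linear_combination this
    rw [s1, a3, hd1, one_mul, add_zero] at s4
    exact s4.symm
  rw [← ker_eq h hg, key]

end border

open Classical in
/-- the set of primes of a kernel vector -/
noncomputable def T0 (S : Finset ℕ) (cl : ℕ → Fin 3) (v : ℕ → ZMod 2) : Finset ℕ :=
  S.filter (fun q => v q = 1 ∧ cl q ≠ 0)

theorem ups : S_UPS := by
  classical
  intro S cl τ o0 hS
  have hfin : ∀ o : Bool, Finite (KerE S (en o cl τ)) := fun o =>
    Module.finite_of_finite (ZMod 2)
  have hft : ∀ o : Bool, Nonempty (Fintype (KerE S (en o cl τ))) := fun o =>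
    ⟨Fintype.ofFinite _⟩
  let ft : ∀ o : Bool, Fintype (KerE S (en o cl τ)) := fun o => Fintype.ofFinite _
  have hcard : ∀ o, Fintype.card (KerE S (en o cl τ)) = 2 ^ cork o S cl τ := by
    intro o
    have := Module.card_eq_pow_finrank (K := ZMod 2) (V := KerE S (en o cl τ))
    rw [ZMod.card] at this
    exact this
  refine ⟨(univ.image (fun v : KerE S (en false cl τ) => T0 S cl v.1)) ∪
    (univ.image (fun v : KerE S (en true cl τ) => T0 S cl v.1)), ?_, ?_, ?_⟩
  · refine (card_union_le _ _).trans (Nat.add_le_add ?_ ?_)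
    · refine card_image_le.trans ?_
      rw [card_univ, hcard]
    · refine card_image_le.trans ?_
      rw [card_univ, hcard]
  · intro T hT
    rw [mem_union, mem_image, mem_image] at hT
    rcases hT with ⟨v, -, rfl⟩ | ⟨v, -, rfl⟩ <;> exact filter_subset _ _
  · intro l _ hlS hl8 hsum
    set g : ℕ → ZMod 2 := fun q => if cl q = 0 then 0 else nr q l with hgdef
    have hg : ∀ o, ∀ v ∈ KerE S (en o cl τ), ∑ q ∈ S, g q * v q = 0 := by
      intro o v hv
      have h1 := sum_filter_eq (S := S) cl 0 (fun q => nr q l) v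
      rw [hgdef]
      rw [h1]
      have h2 : S.filter (fun q => v q = 1 ∧ cl q ≠ 0) = T0 S cl v := by
        unfold T0
        congr
      rw [h2]
      apply hsum
      rw [mem_union, mem_image, mem_image]
      cases o
      · exact Or.inl ⟨⟨v, hv⟩, mem_univ _, rfl⟩
      · exact Or.inr ⟨⟨v, hv⟩, mem_univ _, rfl⟩
    have hsy : ∀ o, ∀ p ∈ S, ∀ q ∈ S, en o cl τ p q = en o cl τ q p :=
      fun o p _ q _ => Pool.Agent.L0h59.RZ.en_symm o cl τ p q
    have hx : ∀ o, ∃ x0 : ℕ → ZMod 2, ∀ p ∈ S, ∑ q ∈ S, en o cl τ p q * x0 q = g p :=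
      fun o => solve2 (hsy o) g (hg o)
    choose x0 hx0 using hx
    refine ⟨∑ q ∈ S, g q * x0 o0 q, ?_, ?_⟩
    · intro o
      have hB := en_bord o cl τ hS hlS hl8 0 (∑ q ∈ S, g q * x0 o0 q)
      by_cases hd : ∑ q ∈ S, g q * x0 o0 q = ∑ q ∈ S, g q * x0 o q
      · have := up_one hB (hg o) (hx0 o) hd
        unfold cork
        omega
      · have := up_zero hB (hsy o) (hg o) (hx0 o) hd
        unfold cork
        omega
    · have hB := en_bord o0 cl τ hS hlS hl8 0 (∑ q ∈ S, g q * x0 o0 q)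
      exact up_one hB (hg o0) (hx0 o0) rfl

end Pool.Agent.L0h90.SL
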